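import Mathlib.Topology.LocallyClosed
import Mathlib.Algebra.Group.Hom.Basic
import Mathlib.Topology.Algebra.MulAction
import Mathlib.Topology.Baire.Lemmas
import Mathlib.Topology.Baire.LocallyCompactRegular
import Mathlib.Topology.Compactness.SigmaCompact
import Mathlib.Data.Int.Basic
import Mathlib.GroupTheory.GroupAction.Basic
import Mathlib.Tactic.Ring
import Mathlib.Tactic.Abel

/-!
# Theories on the invariant locally closed subsets of a space with an action
-/

set_option autoImplicit false

namespace Pool.Agent.Q105.CC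

variable (G X : Type) [Group G] [TopologicalSpace X] [MulAction G X]

/-- The invariant locally closed subsets of `X`. -/
structure LCI where
  /-- the set -/
  S : Set X
  lc : IsLocallyClosed S
  inv : ∀ (g : G), ∀ x ∈ S, g • x ∈ S

variable {G X}

/-- `U` is a relatively open subset of `Z`. -/
def Op (U Z : LCI G X) : Prop := ∃ V : Set X, IsOpen V ∧ U.S = Z.S ∩ V

/-- `U` is a relatively open subset of `Z` with complement `A`. -/
def Cut (U A Z : LCI G X) : Prop := Op U Z ∧ A.S = Z.S \ U.S

/-- Groups `obj n Z` for the invariant locally closed subsets `Z` of `X`, with extension homomorphisms for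
relatively open subsets, restriction homomorphisms for relatively closed subsets and boundary
homomorphisms. -/
structure Theory (G X : Type) [Group G] [TopologicalSpace X] [MulAction G X] where
  /-- the groups -/
  obj : ℤ → LCI G X → Type
  inst : ∀ n Z, AddCommGroup (obj n Z)
  /-- extension -/
  ext : ∀ n {U Z}, Op U Z → obj n U → obj n Z
  /-- restriction -/
  res : ∀ n {U A Z}, Cut U A Z → obj n Z → obj n A
  /-- boundary -/
  bd : ∀ n {U A Z}, Cut U A Z → obj (n + 1) A → obj n U
  ext_add : ∀ n {U Z} (h : Op U Z) x y, ext n h (x + y) = ext n h x + ext n h y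
  res_add : ∀ n {U A Z} (h : Cut U A Z) x y, res n h (x + y) = res n h x + res n h y
  bd_add : ∀ n {U A Z} (h : Cut U A Z) x y, bd n h (x + y) = bd n h x + bd n h y

attribute [instance] Theory.inst

section

variable (E : Theory G X)

/-- exactness at `Z` -/
def ExZ : Prop := ∀ (n : ℤ) (U A Z : LCI G X) (h : Cut U A Z) (z : E.obj n Z),
  E.res n h z = 0 ↔ ∃ u, E.ext n h.1 u = z

/-- exactness at the open subset -/
def ExU : Prop := ∀ (n : ℤ) (U A Z : LCI G X) (h : Cut U A Z) (u : E.obj n U),
  E.ext n h.1 u = 0 ↔ ∃ a, E.bd n h a = u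

/-- exactness at the complement -/
def ExA : Prop := ∀ (n : ℤ) (U A Z : LCI G X) (h : Cut U A Z) (a : E.obj (n + 1) A),
  E.bd n h a = 0 ↔ ∃ z, E.res (n + 1) h z = a

/-- The sequences of relatively open subsets are exact. -/
def ExactSeq : Prop := ExZ E ∧ ExU E ∧ ExA E

/-- The groups of the empty set are zero. -/
def EmptyZero : Prop := ∀ n (Z : LCI G X), Z.S = ∅ → ∀ z : E.obj n Z, z = 0

/-- Extensions are functorial. -/
def ExtComp : Prop :=
  ∀ n (U V Z : LCI G X) (h : Op U V) (h' : Op V Z) (h'' : Op U Z) (u : E.obj n U),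
    E.ext n h' (E.ext n h u) = E.ext n h'' u

/-- `U` is a directed family of relatively open subsets of `Z` with union `Z`. -/
structure DirUn {I : Type} [Preorder I] (U : I → LCI G X) (Z : LCI G X) : Prop where
  dir : ∀ i j : I, ∃ k, i ≤ k ∧ j ≤ k
  op : ∀ i, Op (U i) Z
  mono : ∀ i j, i ≤ j → Op (U i) (U j)
  all : ∀ x ∈ Z.S, ∃ i, x ∈ (U i).S

/-- The elements for a directed union come from the members. -/
def UnionSurj : Prop :=
  ∀ (n : ℤ) (Z : LCI G X) (I : Type) [Preorder I] [Nonempty I] (U : I → LCI G X)
    (h : DirUn U Z) (z : E.obj n Z), ∃ i u, E.ext n (h.op i) u = z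

/-- Elements of a member that vanish for the union vanish for a larger member. -/
def UnionKer : Prop :=
  ∀ (n : ℤ) (Z : LCI G X) (I : Type) [Preorder I] [Nonempty I] (U : I → LCI G X)
    (h : DirUn U Z) (i : I) (u : E.obj n (U i)), E.ext n (h.op i) u = 0 →
      ∃ (j : I) (hij : i ≤ j), E.ext n (h.mono i j hij) u = 0

/-- The groups of the empty set are zero, extensions are functorial, and the theory is continuous for
directed unions of relatively open subsets. -/
def Continuity : Prop := EmptyZero E ∧ ExtComp E ∧ UnionSurj E ∧ UnionKer E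

end

/-- Natural transformations that commute with extensions, restrictions and boundaries. -/
structure Trans (H E : Theory G X) where
  /-- the homomorphisms -/
  app : ∀ n Z, H.obj n Z → E.obj n Z
  app_add : ∀ n Z x y, app n Z (x + y) = app n Z x + app n Z y
  ext : ∀ n U Z (h : Op U Z) u, app n Z (H.ext n h u) = E.ext n h (app n U u)
  res : ∀ n U A Z (h : Cut U A Z) z, app n A (H.res n h z) = E.res n h (app n Z z)
  bd : ∀ n U A Z (h : Cut U A Z) a, app n U (H.bd n h a) = E.bd n h (app (n + 1) A a)

/-- All homomorphisms for `Z` are bijective. -/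
def Iso {H E : Theory G X} (α : Trans H E) (Z : LCI G X) : Prop :=
  ∀ n, Function.Bijective (α.app n Z)

end Pool.Agent.Q105.CC
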