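import Pool.Agent.Q105.CC.Defs

/-!
# Isomorphisms of theories: extensions, unions, countably many orbits
-/

set_option autoImplicit false
set_option linter.unusedSectionVars false

namespace Pool.Agent.Q105.CC

open Topology

variable {G X : Type} [Group G] [TopologicalSpace X] [MulAction G X] {H E : Theory G X}
  {α : Trans H E}

/-- the homomorphisms -/
def Theory.extH (E : Theory G X) (n : ℤ) {U Z : LCI G X} (h : Op U Z) : E.obj n U →+ E.obj n Z :=
  AddMonoidHom.mk' (E.ext n h) (E.ext_add n h)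

/-- the homomorphisms -/
def Theory.resH (E : Theory G X) (n : ℤ) {U A Z : LCI G X} (h : Cut U A Z) :
    E.obj n Z →+ E.obj n A := AddMonoidHom.mk' (E.res n h) (E.res_add n h)

/-- the homomorphisms -/
def Theory.bdH (E : Theory G X) (n : ℤ) {U A Z : LCI G X} (h : Cut U A Z) :
    E.obj (n + 1) A →+ E.obj n U := AddMonoidHom.mk' (E.bd n h) (E.bd_add n h)

/-- the homomorphisms -/
def Trans.hom (α : Trans H E) (n : ℤ) (Z : LCI G X) : H.obj n Z →+ E.obj n Z :=
  AddMonoidHom.mk' (α.app n Z) (α.app_add n Z)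

theorem iso_inj {Z : LCI G X} {n : ℤ} (h : Iso α Z) {x : H.obj n Z} (hx : α.app n Z x = 0) :
    x = 0 := (injective_iff_map_eq_zero (α.hom n Z)).1 (h n).1 x hx

/-- two of three -/
theorem iso_cut (hH : ExactSeq H) (hE : ExactSeq E) {U A Z : LCI G X} (h : Cut U A Z)
    (hU : Iso α U) (hA : Iso α A) : Iso α Z := by
  intro n
  obtain ⟨n, rfl⟩ : ∃ k, n = k + 1 := ⟨n - 1, by ring⟩
  constructor
  · refine (injective_iff_map_eq_zero (α.hom (n + 1) Z)).2 (fun x hx => ?_)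
    have hx' : α.app (n + 1) Z x = 0 := hx
    have h1 : H.res (n + 1) h x = 0 := iso_inj hA (by
      rw [α.res, hx']
      exact (E.resH (n + 1) h).map_zero)
    obtain ⟨u, rfl⟩ := (hH.1 (n + 1) U A Z h x).1 h1
    rw [α.ext] at hx'
    obtain ⟨a, ha⟩ := (hE.2.1 (n + 1) U A Z h _).1 hx'
    obtain ⟨a', rfl⟩ := (hA (n + 1 + 1)).2 a
    have h2 : H.bd (n + 1) h a' = u := (hU (n + 1)).1 (by rw [α.bd, ha])
    exact (hH.2.1 (n + 1) U A Z h u).2 ⟨a', h2⟩
  · intro z
    obtain ⟨a, ha⟩ := (hA (n + 1)).2 (E.res (n + 1) h z)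
    have h1 : H.bd n h a = 0 := iso_inj hU (by
      rw [α.bd, ha]
      exact (hE.2.2 n U A Z h _).2 ⟨z, rfl⟩)
    obtain ⟨z', hz'⟩ := (hH.2.2 n U A Z h a).1 h1
    have h2 : E.res (n + 1) h (z - α.app (n + 1) Z z') = 0 := by
      have h3 := (E.resH (n + 1) h).map_sub z (α.app (n + 1) Z z')
      refine h3.trans ?_
      change E.res (n + 1) h z - E.res (n + 1) h (α.app (n + 1) Z z') = 0
      rw [← α.res, hz', ha, sub_self]
    obtain ⟨u, hu⟩ := (hE.1 (n + 1) U A Z h _).1 h2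
    obtain ⟨u', rfl⟩ := (hU (n + 1)).2 u
    refine ⟨H.ext (n + 1) h.1 u' + z', ?_⟩
    rw [α.app_add, α.ext, hu, sub_add_cancel]

theorem iso_empty (hH : Continuity H) (hE : Continuity E) {Z : LCI G X} (hZ : Z.S = ∅) :
    Iso α Z := fun n =>
  ⟨fun x y _ => (hH.1 n Z hZ x).trans (hH.1 n Z hZ y).symm,
    fun z => ⟨0, by
      have h1 : α.app n Z 0 = 0 := (α.hom n Z).map_zero
      rw [h1]
      exact (hE.1 n Z hZ z).symm⟩⟩

theorem iso_union (hH : Continuity H) (hE : Continuity E) {Z : LCI G X} {I : Type} [Preorder I]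
    [Nonempty I] {U : I → LCI G X} (hd : DirUn U Z) (h : ∀ i, Iso α (U i)) : Iso α Z := by
  intro n
  have sH := hH.2.2.1 n Z I U hd
  have sE := hE.2.2.1 n Z I U hd
  have kE := hE.2.2.2 n Z I U hd
  constructor
  · refine (injective_iff_map_eq_zero (α.hom n Z)).2 (fun x hx => ?_)
    have hx' : α.app n Z x = 0 := hx
    obtain ⟨i, u, rfl⟩ := sH x
    rw [α.ext] at hx'
    obtain ⟨j, hij, hj⟩ := kE i _ hx'
    rw [← α.ext] at hj
    have h1 : H.ext n (hd.mono i j hij) u = 0 := iso_inj (h j) hj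
    rw [← hH.2.1 n _ _ _ (hd.mono i j hij) (hd.op j) (hd.op i) u, h1]
    exact (H.extH n (hd.op j)).map_zero
  · intro z
    obtain ⟨i, u, rfl⟩ := sE z
    obtain ⟨u', rfl⟩ := (h i n).2 u
    exact ⟨H.ext n (hd.op i) u', α.ext n _ _ (hd.op i) u'⟩

/-- the intersection with an invariant open set -/
def LCI.interOpen (Z : LCI G X) (W : Set X) (hW : IsOpen W) (hi : ∀ (g : G), ∀ x ∈ W, g • x ∈ W) :
    LCI G X where
  S := Z.S ∩ W
  lc := Z.lc.inter hW.isLocallyClosed
  inv := fun g x hx => ⟨Z.inv g x hx.1, hi g x hx.2⟩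

/-- the difference with an invariant open set -/
def LCI.diffOpen (Z : LCI G X) (W : Set X) (hW : IsOpen W) (hi : ∀ (g : G), ∀ x ∈ W, g • x ∈ W) :
    LCI G X where
  S := Z.S \ W
  lc := Z.lc.inter hW.isClosed_compl.isLocallyClosed
  inv := fun g x hx => ⟨Z.inv g x hx.1, fun h => hx.2 (by
    have h1 := hi g⁻¹ _ h
    rwa [inv_smul_smul] at h1)⟩

theorem cut_open (Z : LCI G X) (W : Set X) (hW : IsOpen W)
    (hi : ∀ (g : G), ∀ x ∈ W, g • x ∈ W) :
    Cut (Z.interOpen W hW hi) (Z.diffOpen W hW hi) Z :=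
  ⟨⟨W, hW, rfl⟩, by
    change Z.S \ W = Z.S \ (Z.S ∩ W)
    rw [Set.sdiff_self_inter]⟩

/-- The homomorphisms are bijective for all invariant locally closed subsets of the invariant open set
`W`. -/
def HG (α : Trans H E) (W : Set X) : Prop :=
  IsOpen W ∧ (∀ (g : G), ∀ x ∈ W, g • x ∈ W) ∧ ∀ Z : LCI G X, Z.S ⊆ W → Iso α Z

variable (hH : ExactSeq H) (hE : ExactSeq E) (cH : Continuity H) (cE : Continuity E)

include hH hE in
theorem hg_sup {W W' : Set X} (h : HG α W) (h' : HG α W') : HG α (W ∪ W') := by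
  refine ⟨h.1.union h'.1, fun g x hx => hx.imp (h.2.1 g x) (h'.2.1 g x), fun Z hZ => ?_⟩
  refine iso_cut hH hE (cut_open Z W h.1 h.2.1) (h.2.2 _ (fun x hx => hx.2))
    (h'.2.2 _ (fun x hx => ?_))
  exact (hZ hx.1).resolve_left hx.2

include hH hE cH cE in
/-- the largest good open set -/
theorem hg_union : HG α (⋃₀ {W | HG α W}) := by
  classical
  refine ⟨isOpen_sUnion (fun W hW => hW.1), fun g x hx => ?_, fun Z hZ => ?_⟩
  · obtain ⟨W, hW, hx⟩ := hx
    exact ⟨W, hW, hW.2.1 g x hx⟩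
  · let w : Finset {W : Set X // HG α W} → Set X := fun F => {x | ∃ W ∈ F, x ∈ (W : Set X)}
    have hw : ∀ F, HG α (w F) := by
      intro F
      induction F using Finset.induction_on with
      | empty =>
        have h0 : w ∅ = ∅ := Set.eq_empty_iff_forall_notMem.2 (fun x hx => by
          obtain ⟨W, hW, -⟩ := hx
          exact absurd hW (Finset.notMem_empty W))
        rw [h0]
        exact ⟨isOpen_empty, fun g x hx => hx.elim, fun Z hZ =>
          iso_empty cH cE (Set.subset_empty_iff.1 hZ)⟩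
      | insert W F _ ih =>
        have h1 : w (insert W F) = (W : Set X) ∪ w F := by
          ext x
          constructor
          · rintro ⟨W', hW', hx⟩
            rcases Finset.mem_insert.1 hW' with rfl | hW'
            · exact Or.inl hx
            · exact Or.inr ⟨W', hW', hx⟩
          · rintro (hx | ⟨W', hW', hx⟩)
            · exact ⟨W, Finset.mem_insert_self W F, hx⟩
            · exact ⟨W', Finset.mem_insert_of_mem hW', hx⟩
        rw [h1]
        exact hg_sup hH hE W.2 ih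
    have hmono : ∀ F F' : Finset {W : Set X // HG α W}, F ≤ F' → w F ⊆ w F' := by
      rintro F F' hF x ⟨W, hW, hx⟩
      exact ⟨W, hF hW, hx⟩
    refine iso_union cH cE (I := Finset {W : Set X // HG α W})
      (U := fun F => Z.interOpen (w F) (hw F).1 (hw F).2.1)
      ⟨fun F F' => ⟨F ∪ F', Finset.subset_union_left, Finset.subset_union_right⟩,
      fun F => ⟨w F, (hw F).1, rfl⟩, fun F F' hF => ⟨w F, (hw F).1, ?_⟩, fun x hx => ?_⟩
      (fun F => (hw F).2.2 _ (fun x hx => hx.2))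
    · change Z.S ∩ w F = (Z.S ∩ w F') ∩ w F
      rw [Set.inter_assoc, Set.inter_eq_self_of_subset_right (hmono F F' hF)]
    · obtain ⟨W, hW, hxW⟩ := hZ hx
      exact ⟨{⟨W, hW⟩}, hx, ⟨W, hW⟩, Finset.mem_singleton_self _, hxW⟩

include hH hE cH cE in
/-- **The local principle.** -/
theorem iso_all (h : ∀ B : Set X, IsClosed B → (∀ (g : G), ∀ x ∈ B, g • x ∈ B) → B.Nonempty →
    ∃ W : Set X, IsOpen W ∧ (∀ (g : G), ∀ x ∈ W, g • x ∈ W) ∧ (B ∩ W).Nonempty ∧
      ∀ Z : LCI G X, Z.S ⊆ B ∩ W → Iso α Z) (Z : LCI G X) : Iso α Z := by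
  have hO := hg_union (α := α) hH hE cH cE
  let O := ⋃₀ {W | HG α W}
  by_contra hZ
  have hne : (Oᶜ).Nonempty := by
    by_contra hne
    rw [Set.not_nonempty_iff_eq_empty, Set.compl_empty_iff] at hne
    exact hZ (hO.2.2 Z (fun x _ => by
      change x ∈ O
      rw [hne]
      exact Set.mem_univ x))
  have hinv : ∀ (g : G), ∀ x ∈ Oᶜ, g • x ∈ Oᶜ := fun g x hx hgx => hx (by
    have h1 := hO.2.1 g⁻¹ _ hgx
    rwa [inv_smul_smul] at h1)
  obtain ⟨W, hW, hWi, ⟨x, hxO, hxW⟩, hWZ⟩ := h Oᶜ hO.1.isClosed_compl hinv hne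
  have h1 : HG α (O ∪ W) := by
    refine ⟨hO.1.union hW, fun g x hx => hx.imp (hO.2.1 g x) (hWi g x), fun Z hZ => ?_⟩
    refine iso_cut hH hE (cut_open Z O hO.1 hO.2.1) (hO.2.2 _ (fun x hx => hx.2))
      (hWZ _ (fun x hx => ?_))
    exact ⟨hx.2, (hZ hx.1).resolve_left hx.2⟩
  exact hxO ⟨O ∪ W, h1, Or.inr hxW⟩

section baire

variable [ContinuousConstSMul G X] [T2Space X] [LocallyCompactSpace X]

/-- a nonempty relatively open invariant subset in a saturation -/
theorem open_sat {F : ℕ → Set X} (hF : ∀ n, IsClosed (F n)) (hFX : ∀ x, ∃ n, x ∈ F n)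
    {B : Set X} (hB : IsClosed B) (hBi : ∀ (g : G), ∀ x ∈ B, g • x ∈ B) (hne : B.Nonempty) :
    ∃ (n : ℕ) (W : Set X), IsOpen W ∧ (∀ (g : G), ∀ x ∈ W, g • x ∈ W) ∧ (B ∩ W).Nonempty ∧
      ∀ x ∈ B ∩ W, ∃ (g : G), ∃ y ∈ F n, x = g • y := by
  have hBc : LocallyCompactSpace B := hB.locallyCompactSpace
  have : Nonempty B := hne.to_subtype
  let f : ℕ → Set B := fun n => {b | (b : X) ∈ F n}
  have hf : ∀ n, IsClosed (f n) := fun n => (hF n).preimage continuous_subtype_val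
  have hfu : ⋃ n, f n = Set.univ := Set.eq_univ_of_forall (fun b => by
    obtain ⟨n, hn⟩ := hFX b
    exact Set.mem_iUnion.2 ⟨n, hn⟩)
  obtain ⟨n, b, hb⟩ := nonempty_interior_of_iUnion_of_closed hf hfu
  obtain ⟨V, hV, hVf⟩ := isOpen_induced_iff.1 (isOpen_interior (s := f n))
  have hbV : (b : X) ∈ V := by
    have h1 : b ∈ Subtype.val ⁻¹' V := by rw [hVf]; exact hb
    exact h1
  refine ⟨n, ⋃ g : G, (fun x => g⁻¹ • x) ⁻¹' V, ?_, ?_, ⟨b, b.2, ?_⟩, ?_⟩
  · exact isOpen_iUnion (fun g => hV.preimage (continuous_const_smul g⁻¹))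
  · intro g x hx
    obtain ⟨k, hk⟩ := Set.mem_iUnion.1 hx
    refine Set.mem_iUnion.2 ⟨g * k, ?_⟩
    change (g * k)⁻¹ • g • x ∈ V
    rw [mul_inv_rev, mul_smul, inv_smul_smul]
    exact hk
  · refine Set.mem_iUnion.2 ⟨1, ?_⟩
    change (1 : G)⁻¹ • (b : X) ∈ V
    rw [inv_one, one_smul]
    exact hbV
  · rintro x ⟨hxB, hx⟩
    obtain ⟨k, hk⟩ := Set.mem_iUnion.1 hx
    have h1 : (⟨k⁻¹ • x, hBi _ x hxB⟩ : B) ∈ interior (f n) := by
      rw [← hVf]
      exact hk
    have h2 : (⟨k⁻¹ • x, hBi _ x hxB⟩ : B) ∈ f n := interior_subset h1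
    exact ⟨k, k⁻¹ • x, h2, by rw [smul_inv_smul]⟩

include hH hE cH cE in
/-- **The countable sum theorem.** -/
theorem iso_sum {F : ℕ → Set X} (hF : ∀ n, IsClosed (F n)) (hFX : ∀ x, ∃ n, x ∈ F n)
    (hg : ∀ (n : ℕ) (Z : LCI G X), (∀ x ∈ Z.S, ∃ (g : G), ∃ y ∈ F n, x = g • y) → Iso α Z)
    (Z : LCI G X) : Iso α Z := by
  refine iso_all hH hE cH cE (fun B hB hBi hne => ?_) Z
  obtain ⟨n, W, hW, hWi, hBW, hWF⟩ := open_sat (G := G) hF hFX hB hBi hne
  exact ⟨W, hW, hWi, hBW, fun Z hZ => hg n Z (fun x hx => hWF x (hZ hx))⟩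

end baire

section orbits

variable [TopologicalSpace G] [ContinuousSMul G X] [SigmaCompactSpace G] [T2Space X]
  [LocallyCompactSpace X]

include hH hE cH cE in
/-- **Countably many orbits.** -/
theorem iso_orbits {s : Set X} (hs : s.Countable) (hsX : ∀ x : X, ∃ y ∈ s, ∃ g : G, x = g • y)
    (ho : ∀ (Z : LCI G X) (x : X), Z.S = MulAction.orbit G x → Iso α Z) (Z : LCI G X) :
    Iso α Z := by
  rcases isEmpty_or_nonempty X with hX | ⟨⟨x₀⟩⟩
  · exact iso_empty cH cE (Set.eq_empty_of_isEmpty Z.S)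
  · have hsn : s.Nonempty := by
      obtain ⟨y, hy, -⟩ := hsX x₀
      exact ⟨y, hy⟩
    obtain ⟨e, he⟩ := hs.exists_eq_range hsn
    let p : ℕ → ℕ × ℕ := Nat.unpair
    refine iso_sum hH hE cH cE
      (F := fun n => (fun g : G => g • e (p n).1) '' compactCovering G (p n).2) (fun n => ?_)
      (fun x => ?_) (fun n Z hZ => ?_) Z
    · refine ((isCompact_compactCovering G (p n).2).image ?_).isClosed
      exact continuous_id.smul continuous_const
    · obtain ⟨y, hy, g, rfl⟩ := hsX x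
      rw [he] at hy
      obtain ⟨k, rfl⟩ := hy
      obtain ⟨l, hl⟩ := exists_mem_compactCovering g
      refine ⟨Nat.pair k l, g, ?_, ?_⟩
      · change g ∈ compactCovering G (Nat.unpair (Nat.pair k l)).2
        rw [Nat.unpair_pair]
        exact hl
      · change g • e (Nat.unpair (Nat.pair k l)).1 = _
        rw [Nat.unpair_pair]
    · have hZo : Z.S ⊆ MulAction.orbit G (e (p n).1) := by
        intro x hx
        obtain ⟨g, y, ⟨k, -, rfl⟩, rfl⟩ := hZ x hx
        exact ⟨g * k, mul_smul g k _⟩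
      by_cases hZe : Z.S = ∅
      · exact iso_empty cH cE hZe
      · obtain ⟨x, hx⟩ := Set.nonempty_iff_ne_empty.2 hZe
        refine ho Z x (Set.Subset.antisymm (fun z hz => ?_) ?_)
        · rw [MulAction.orbit_eq_iff.2 (hZo hx)]
          exact hZo hz
        · rintro _ ⟨g, rfl⟩
          exact Z.inv g x hx

end orbits

end Pool.Agent.Q105.CC
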